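import Pool.Agent.N639.FH.FinM
import Pool.Agent.N639.FH.FinQ

/-!
# All digit matrices of all widths of the multiples of independent tuples of algebraic numbers

Let `α_1, …, α_r` be real algebraic numbers such that `1, α_1, …, α_r` are linearly independent over
`ℚ` (the case `d = 1` below), `b_1, …, b_r ≥ 2` and `B = b_1 ⋯ b_r`. For all `m ≤ M` but at most
`M (log M) ^ (-K)`, every `r × w` digit matrix, of every width `w`, stands in every window of `N` places
inside the first `A log M` digits of `(m α_1 + y_1, …, m α_r + y_r)` at `N / B ^ w` places, with an error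
of at most `(log M) ^ η (1 + √(N / B ^ w))`. This is the square-root law of random digits; the matrices
may have width `c log log M`, and the windows may be as short as `(log M) ^ η`.

Proof. Tests with a bounded number of digit matrices have errors `O(M ^ (-c))` by the subspace theorem
(`Pool/Agent/Y951/TU`, helper951); the law follows from moments of high order, which are sums of such
tests. Authors: helper639, with parts by helper199, helper407 and helper586.
-/

set_option autoImplicit false

namespace Pool.Agent.Results.MP_c8ecb2_nt.AllMatricesOfAllWidths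

open Finset Real

/-- the word of the `w` digits in base `b` of `x` which follow the first `n` digits after the point,
read as an integer between `0` and `b ^ w - 1` -/
noncomputable def word (b w n : ℕ) (x : ℝ) : ℕ :=
  ⌊(b : ℝ) ^ w * Int.fract ((b : ℝ) ^ n * x)⌋₊

/-- the digit matrix of width `w` whose `j`-th row is the word of `w` digits in base `b j` of `x j`
which follow the first `s j + i` digits -/
noncomputable def matrix {r : ℕ} (b s : Fin r → ℕ) (w i : ℕ) (x : Fin r → ℝ) : Fin r → ℕ :=
  fun j => word (b j) w (s j + i) (x j)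

/-- every digit matrix `D` of every width `w ≤ T` stands in all windows `s j ≤ · < s j + N ≤ T` at
`N / ∏ j, b j ^ w` places, up to `E (1 + √(N / ∏ j, b j ^ w))` -/
def AllMatrices {r : ℕ} (b : Fin r → ℕ) (T E : ℝ) (x : Fin r → ℝ) : Prop :=
  ∀ (w N : ℕ) (D s : Fin r → ℕ), (w : ℝ) ≤ T → (∀ j, D j < b j ^ w) → (∀ j, (s j : ℝ) + N ≤ T) →
    |(((range N).filter fun i => matrix b s w i x = D).card : ℝ) - N / ∏ j, (b j : ℝ) ^ w| ≤
      E * (1 + √(N / ∏ j, (b j : ℝ) ^ w))

open Classical in
/-- Let `Ω` be an `r × d` matrix of real algebraic numbers such that for every nonzero integer vector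
`c` some entry of `c Ω` is irrational (for `d = 1` this means that `1, Ω_1, …, Ω_r` are linearly
independent over `ℚ`), and let bases `b j ≥ 2`, `A > 0`, `η > 0` and `K` be given. There is `M₀` such that
for all `M ≥ M₀` and all real vectors `y`, all but at most `M ^ d / (log M) ^ K` of the `m` in
`{1, …, M} ^ d` are such that all digit matrices of `Ω m + y` of all widths `w ≤ A log M` satisfy the
law `AllMatrices` in all windows of the first `A log M` places. -/
theorem result (r d : ℕ) (hr : 1 ≤ r) (Ω : Fin r → Fin d → ℝ)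
    (halg : ∀ j t, IsAlgebraic ℚ (Ω j t))
    (hind : ∀ c : Fin r → ℤ, c ≠ 0 → ∃ t, Irrational (∑ j, (c j : ℝ) * Ω j t)) (b : Fin r → ℕ)
    (hb : ∀ j, 2 ≤ b j) (A η : ℝ) (hA : 0 < A) (hη : 0 < η) (K : ℕ) :
    ∃ M₀ : ℕ, ∀ M : ℕ, M₀ ≤ M → ∀ y : Fin r → ℝ,
      (((Fintype.piFinset fun _ : Fin d => Icc 1 M).filter (fun m : Fin d → ℕ =>
        ¬ AllMatrices b (A * log M) ((log M) ^ η)
          (fun j => ∑ t, (m t : ℝ) * Ω j t + y j))).card : ℝ) ≤ (M : ℝ) ^ d / (log M) ^ K := by
  have hp : ∀ k : ℕ, (∏ j, (b j : ℝ) ^ k) = ((∏ j, b j : ℕ) : ℝ) ^ k := by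
    intro k
    rw [Finset.prod_pow]
    push_cast
    rfl
  obtain ⟨M₀, hM₀⟩ := Filter.eventually_atTop.1
    ((Pool.Agent.N639.FH.mat1 hr Ω halg hind hb hA (by positivity : 0 < η / 2) (K + 1)).and
      (Pool.Agent.N639.FH.err1 hA hη K))
  refine ⟨M₀, fun M hM y => ?_⟩
  obtain ⟨h1, h2, h3⟩ := hM₀ M hM
  have key := h1 y
  refine le_trans ?_ (key.trans ?_)
  · have hsub : ((Fintype.piFinset fun _ : Fin d => Icc 1 M).filter (fun m : Fin d → ℕ =>
        ¬ AllMatrices b (A * log M) ((log M) ^ η) (fun j => ∑ t, (m t : ℝ) * Ω j t + y j))) ⊆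
        ((Pool.Agent.Y933.KD.box d M).filter fun m => ¬ ∀ (w N : ℕ) (D s : Fin r → ℕ),
          (w : ℝ) ≤ A * log M → (∀ j, D j < b j ^ w) → (∀ j, (s j : ℝ) + N ≤ A * log M) →
          |(((range N).filter fun i => ∀ j, Pool.Agent.Y933.KD.wd (b j) w (s j + i)
            (Pool.Agent.Y951.TU.comb Ω y m j) = D j).card : ℝ) -
            N / ((∏ j, b j : ℕ) : ℝ) ^ w| ≤
            (A * log M) ^ (η / 2) * (1 + √(N / ((∏ j, b j : ℕ) : ℝ) ^ w))) := by
      intro m hm
      rw [mem_filter] at hm ⊢
      refine ⟨hm.1, fun hcon => hm.2 fun w N D s k1 k2 k3 => ?_⟩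
      have k4 := hcon w N D s k1 k2 k3
      rw [hp]
      have k5 : ((range N).filter fun i =>
          matrix b s w i (fun j => ∑ t, (m t : ℝ) * Ω j t + y j) = D) =
          ((range N).filter fun i => ∀ j, Pool.Agent.Y933.KD.wd (b j) w (s j + i)
            (Pool.Agent.Y951.TU.comb Ω y m j) = D j) := by
        refine filter_congr fun i _ => ?_
        rw [funext_iff]
        rfl
      rw [k5]
      refine k4.trans ?_
      gcongr
    exact_mod_cast card_le_card hsub
  · rw [div_eq_inv_mul]
    gcongr

end Pool.Agent.Results.MP_c8ecb2_nt.AllMatricesOfAllWidths
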