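import Pool.Agent.N639.FH.FinM

/-!
# The Poisson law for the digit matrices of the multiples of independent tuples of algebraic numbers

Let `α_1, …, α_r` be real algebraic numbers such that `1, α_1, …, α_r` are linearly independent over
`ℚ` (the case `d = 1` below), `b_1, …, b_r ≥ 2` and `B = b_1 ⋯ b_r`. Consider a set of `R` digit matrices
`r × w` such that two of them never overlap in at least half of their columns, and a window of `N` places,
where `N → ∞` and `N / B ^ w` is bounded from above and below. For `m` random in `{1, …, M}` the number of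
the places of the window at which one of the matrices stands in the digits of
`(m α_1 + y_1, …, m α_r + y_r)` has asymptotically the Poisson distribution with the mean
`R N / B ^ w`, uniformly in the matrices, in the real numbers `y_j` and in the window inside the first
`A log M` places. For `k = 0` this is the exponential law for the waiting time of a matrix.

Proof. Tests with a bounded number of digit matrices have errors `O(M ^ (-c))` by the subspace theorem
(`Pool/Agent/Y951/TU`, helper951); the binomial moments of the number of occurrences are sums of such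
tests. Authors: helper639, with parts by helper199, helper711, helper79 and helper586.
-/

set_option autoImplicit false

namespace Pool.Agent.Results.MP_c8ecb2_nt.PoissonLawOfMatrices

open Finset Real

/-- the word of the `w` digits in base `b` of `x` which follow the first `n` digits after the point,
read as an integer between `0` and `b ^ w - 1` -/
noncomputable def word (b w n : ℕ) (x : ℝ) : ℕ :=
  ⌊(b : ℝ) ^ w * Int.fract ((b : ℝ) ^ n * x)⌋₊

/-- the digit matrix of width `w` whose `j`-th row is the word of `w` digits in base `b j` of `x j`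
which follow the first `s j + i` digits -/
noncomputable def matrix {r : ℕ} (b s : Fin r → ℕ) (w i : ℕ) (x : Fin r → ℝ) : Fin r → ℕ :=
  fun j => word (b j) w (s j + i) (x j)

/-- the last `w - e` columns of a matrix of `W` are never the first `w - e` columns of a matrix of
`W`, for `1 ≤ e ≤ w / 2` -/
def NoLargeOverlap {r : ℕ} (b : Fin r → ℕ) (w : ℕ) (W : Finset (Fin r → ℕ)) : Prop :=
  ∀ D ∈ W, ∀ D' ∈ W, ∀ e : ℕ, 1 ≤ e → 2 * e ≤ w →
    (fun j => D j % b j ^ (w - e)) ≠ fun j => D' j / b j ^ e

open Classical in
/-- Let `Ω` be an `r × d` matrix of real algebraic numbers such that for every nonzero integer vector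
`c` some entry of `c Ω` is irrational (for `d = 1` this means that `1, Ω_1, …, Ω_r` are linearly
independent over `ℚ`), and let bases `b j ≥ 2`, `A > 0`, `κ > 0`, `ε > 0` and `R`, `k` be given. There
are `N₀` and `M₀` such that for all `M ≥ M₀`, all real vectors `y`, all windows `s`, `N` with `N ≥ N₀` and
`s j + N ≤ A log M`, all `w` with `N ≤ κ B` and `B ≤ κ N`, where `B = ∏ j, b j ^ w`, and all sets `W` of
`R` digit matrices of width `w` without large overlaps the following holds: the proportion of
the `m` in `{1, …, M} ^ d` for which exactly `k` places of the window carry a digit matrix of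
`Ω m + y` which belongs to `W` differs from `e ^ (-v) v ^ k / k!`, `v = R N / B`, by at most `ε`. -/
theorem result (r d : ℕ) (hr : 1 ≤ r) (Ω : Fin r → Fin d → ℝ)
    (halg : ∀ j t, IsAlgebraic ℚ (Ω j t))
    (hind : ∀ c : Fin r → ℤ, c ≠ 0 → ∃ t, Irrational (∑ j, (c j : ℝ) * Ω j t)) (b : Fin r → ℕ)
    (hb : ∀ j, 2 ≤ b j) (A κ ε : ℝ) (hA : 0 < A) (hκ : 0 < κ) (hε : 0 < ε) (R k : ℕ) :
    ∃ N₀ M₀ : ℕ, ∀ M : ℕ, M₀ ≤ M → ∀ (y : Fin r → ℝ) (s : Fin r → ℕ) (w N : ℕ)
      (W : Finset (Fin r → ℕ)), N₀ ≤ N → (∀ j, (s j : ℝ) + N ≤ A * log M) →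
      (N : ℝ) ≤ κ * ∏ j, (b j : ℝ) ^ w → (∏ j, (b j : ℝ) ^ w) ≤ κ * N →
      (∀ D ∈ W, ∀ j, D j < b j ^ w) → W.card = R → NoLargeOverlap b w W →
      |(((Fintype.piFinset fun _ : Fin d => Icc 1 M).filter (fun m : Fin d → ℕ =>
          ((range N).filter fun i =>
            matrix b s w i (fun j => ∑ t, (m t : ℝ) * Ω j t + y j) ∈ W).card = k)).card : ℝ) /
            (M : ℝ) ^ d -
        exp (-(R * (N / ∏ j, (b j : ℝ) ^ w))) *
          (R * (N / ∏ j, (b j : ℝ) ^ w)) ^ k / k.factorial| ≤ ε := by
  have hp : ∀ k : ℕ, (∏ j, (b j : ℝ) ^ k) = ((∏ j, b j : ℕ) : ℝ) ^ k := by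
    intro k
    rw [Finset.prod_pow]
    push_cast
    rfl
  obtain ⟨N₀, hN₀⟩ := Pool.Agent.N639.FH.mat3 hr Ω halg hind hb hA R k hκ hε
  obtain ⟨M₀, hM₀⟩ := Filter.eventually_atTop.1 hN₀
  refine ⟨N₀, M₀, fun M hM y s w N W h1 h2 h3 h4 h5 h6 h7 => ?_⟩
  rw [hp] at h3 h4 ⊢
  exact hM₀ M hM y s w N W h1 h2 h3 h4 h5 h6 h7

end Pool.Agent.Results.MP_c8ecb2_nt.PoissonLawOfMatrices
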