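import Pool.Agent.N549.JC.Nil

/-!
# The digit matrices of a tuple of algebraic numbers leave every hyperplane with a power rate

Let `α_1, …, α_n` be real algebraic numbers such that `1, α_1, …, α_n` are linearly independent over
`ℚ`, and let `D_k` be the matrix of the base `b` digits `a_{j,k}, …, a_{j,k+m-1}` of the `α_j`.  For
a tuple which is normal to base `b` the matrix `D_k` is off a given hyperplane for a positive
proportion of the `k`.  In general only `c (log N)^3 / (log log N)^5` places `k ≤ N` are known (starting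
result `MatricesExponentThree`).  We prove `c N ^ δ`
* if the `α_j` lie in a real number field with a totally ramified prime `p` not dividing `b`;
* if the `α_j` lie in a real number field whose Galois closure `E` has a nilpotent Galois group (for
  instance in an abelian field) and `b` is prime to the discriminant of `E`;
* whenever for every nonzero integer vector `z` some subfield of `ℚ(z_1 α_1 + … + z_n α_n)` and some
  prime `p` not dividing `b` are such that all primes of the subfield above `p` are ramified.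
-/

set_option autoImplicit false

namespace Pool.Agent.Results.MP_c8ecb2_nt.PowerRate

open Finset Filter NumberField IntermediateField Pool.Agent.N549.JC

/-- the `k`-th digit after the point of `x` in base `b` -/
noncomputable def digit (b : ℕ) (x : ℝ) (k : ℕ) : ℤ := ⌊x * (b : ℝ) ^ k⌋ % b

/-- For every nonzero integer `n × m` matrix `q` and every integer `e` there are `c, δ > 0` such that
for all large `N` the matrix `(a_{j,k+t})` is off the hyperplane `∑ q_{j,t} x_{j,t} = e` for at least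
`c N ^ δ` of the `1 ≤ k ≤ N`. -/
def MatricesLeave {n : ℕ} (a : Fin n → ℕ → ℤ) : Prop :=
  ∀ (m : ℕ) (q : Fin n → Fin m → ℤ), q ≠ 0 → ∀ e : ℤ,
    ∃ c δ : ℝ, 0 < c ∧ 0 < δ ∧ ∀ᶠ N : ℕ in atTop, c * (N : ℝ) ^ δ ≤
      (((Icc 1 N).filter (fun k : ℕ => ∑ j, ∑ t : Fin m, q j t * a j (k + t) ≠ e)).card : ℝ)

/-- The digit matrices of `α` in base `b` leave every hyperplane with a power rate, and the same
holds for all other expansions of the `α_j` with bounded integer digits. -/
def LeavesHyperplanes {n : ℕ} (b : ℕ) (α : Fin n → ℝ) : Prop :=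
  MatricesLeave (fun j k => digit b (α j) k) ∧
    ∀ (g : Fin n → ℕ → ℤ) (G : ℤ), (∀ j k, |g j k| ≤ G) →
      (∀ j, HasSum (fun k : ℕ => (g j k : ℝ) / (b : ℝ) ^ k) (α j)) → MatricesLeave g

/-- `1, α_1, …, α_n` are linearly independent over `ℚ` -/
def Independent {n : ℕ} (α : Fin n → ℝ) : Prop :=
  ∀ (q0 : ℚ) (q : Fin n → ℚ), (q0 : ℝ) + ∑ j, (q j : ℝ) * α j = 0 → q0 = 0 ∧ q = 0

lemma irr {n : ℕ} (α : Fin n → ℝ) (hind : Independent α) (z : Fin n → ℤ) (hz : z ≠ 0) :
    Irrational (∑ i, (z i : ℝ) * α i) := by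
  intro hrat
  obtain ⟨r, hr⟩ := hrat
  have h := hind (-r) (fun i => (z i : ℚ)) (by
    push_cast
    rw [hr]; ring)
  apply hz
  funext i
  have := congrFun h.2 i
  simpa using this

lemma card_shift (P : ℕ → Prop) [DecidablePred P] (N : ℕ) :
    ((range N).filter (fun k => P (k + 1))).card = ((Icc 1 N).filter P).card := by
  apply Finset.card_nbij' (fun k => k + 1) (fun k => k - 1)
  · intro k hk
    rw [Finset.mem_coe, Finset.mem_filter, Finset.mem_range] at hk
    rw [Finset.mem_coe, Finset.mem_filter, Finset.mem_Icc]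
    dsimp only
    exact ⟨⟨by omega, by omega⟩, hk.2⟩
  · intro k hk
    rw [Finset.mem_coe, Finset.mem_filter, Finset.mem_Icc] at hk
    rw [Finset.mem_coe, Finset.mem_filter, Finset.mem_range]
    dsimp only
    refine ⟨by omega, ?_⟩
    rw [Nat.sub_add_cancel hk.1.1]; exact hk.2
  · intro k _; simp
  · intro k hk
    rw [Finset.mem_coe, Finset.mem_filter, Finset.mem_Icc] at hk
    exact Nat.sub_add_cancel hk.1.1

lemma off_of_ram {n : ℕ} (b : ℕ) (hb : 2 ≤ b) (α : Fin n → ℝ) (halg : ∀ j, IsAlgebraic ℚ (α j))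
    (H : ∀ z : Fin n → ℤ, z ≠ 0 → HasRam (∑ j, (z j : ℝ) * α j) b)
    (g : Fin n → ℕ → ℤ) (G : ℤ) (hg : ∀ j k, |g j k| ≤ G)
    (hs : ∀ j, HasSum (fun k : ℕ => (g j k : ℝ) / (b : ℝ) ^ k) (α j)) : MatricesLeave g := by
  intro m q hq e
  obtain ⟨j0, t0, hjt⟩ : ∃ j t, q j t ≠ 0 := by
    by_contra hcon
    push Not at hcon
    exact hq (by funext j t; exact hcon j t)
  have hm : 1 ≤ m := Nat.succ_le_of_lt (lt_of_le_of_lt (Nat.zero_le _) t0.2)
  have halg' : ∀ z : Fin n → ℤ, IsAlgebraic ℚ (∑ j, (z j : ℝ) * α j) := by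
    intro z
    have : IsIntegral ℚ (∑ j, (z j : ℝ) * α j) := by
      apply IsIntegral.sum
      intro j _
      apply IsIntegral.mul _ (halg j).isIntegral
      have : ((z j : ℤ) : ℝ) = algebraMap ℚ ℝ (z j) := by simp
      rw [this]; exact isIntegral_algebraMap
    exact this.isAlgebraic
  obtain ⟨c, δ, hc, hδ, hev⟩ := relations b hb α
    (fun z hz n0 => joint_single _ (halg' z) b hb (H z hz) n0) g G hg hs (m - 1)
    (fun j t => if ht : t < m then q j ⟨t, ht⟩ else 0)
    ⟨j0, t0, Finset.mem_range.2 (by omega), by simpa using hjt⟩ e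
  refine ⟨c, δ, hc, hδ, hev.mono fun N hN => hN.trans (le_of_eq ?_)⟩
  rw [← card_shift]
  unfold fails
  congr 2
  apply Finset.filter_congr
  intro k _
  have : rel g (m - 1) (fun j t => if ht : t < m then q j ⟨t, ht⟩ else 0) (k + 1) =
      ∑ j, ∑ t : Fin m, q j t * g j (k + 1 + t) := by
    unfold rel
    apply Finset.sum_congr rfl
    intro j _
    rw [Nat.sub_add_cancel hm, Finset.sum_range]
    apply Finset.sum_congr rfl
    intro t _
    dsimp only
    rw [dif_pos t.2]
  rw [this]

lemma rate_of_ram {n : ℕ} (b : ℕ) (hb : 2 ≤ b) (α : Fin n → ℝ) (halg : ∀ j, IsAlgebraic ℚ (α j))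
    (H : ∀ z : Fin n → ℤ, z ≠ 0 → HasRam (∑ j, (z j : ℝ) * α j) b) : LeavesHyperplanes b α := by
  refine ⟨?_, fun g G hg hs => off_of_ram b hb α halg H g G hg hs⟩
  intro m q hq e
  obtain ⟨c, δ, hc, hδ, hev⟩ := off_of_ram b hb α halg H (fun j => usual (α j) b)
    (∑ j, (|⌊α j⌋| + b)) (by
      intro i k
      refine (usual_bound (α i) b hb k).trans ?_
      exact Finset.single_le_sum (f := fun i => |⌊α i⌋| + (b : ℤ))
        (fun j _ => by positivity) (Finset.mem_univ i)) (fun j => usual_hasSum (α j) b hb) m q hq e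
  refine ⟨c, δ, hc, hδ, hev.mono fun N hN => hN.trans (le_of_eq ?_)⟩
  congr 2
  apply Finset.filter_congr
  intro k hk
  rw [Finset.mem_Icc] at hk
  have h1 : ∀ j, ∀ t : Fin m, usual (α j) b (k + t) = digit b (α j) (k + t) := by
    intro j t
    obtain ⟨l, hl⟩ : ∃ l, k + (t : ℕ) = l + 1 := ⟨k + t - 1, by omega⟩
    rw [hl]
    rfl
  simp only [h1]

/-- **Theorem.** Let `b ≥ 2` and let `α_1, …, α_n` be real algebraic numbers.

(1) Suppose that for every nonzero integer vector `z` the field `ℚ(z_1 α_1 + … + z_n α_n)` has a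
subfield `L` such that for some prime `p` not dividing `b` all prime ideals of `L` containing `p` are
ramified (`p ∈ P ^ 2`). Then the digit matrices of `(α_1, …, α_n)` in base `b` leave every rational
hyperplane with the power rate `c N ^ δ`.

(2) Let `K` be a real number field in which a prime `p` not dividing `b` is totally ramified
(`p ∈ P ^ [K : ℚ]` for some prime ideal `P`), and let `α_j ∈ K` with `1, α_1, …, α_n` independent
over `ℚ`. Then the same holds.

(3) Let `K` be a real number field which embeds in a Galois number field `E` with nilpotent Galois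
group (for instance an abelian field `K`) and let `b` be prime to the discriminant of `E`. Let
`α_j ∈ K` with `1, α_1, …, α_n` independent over `ℚ`. Then the same holds. -/
theorem result (b n : ℕ) (hb : 2 ≤ b) (α : Fin n → ℝ) (halg : ∀ j, IsAlgebraic ℚ (α j)) :
    ((∀ z : Fin n → ℤ, z ≠ 0 → ∃ L : IntermediateField ℚ ℝ, L ≤ ℚ⟮∑ j, (z j : ℝ) * α j⟯ ∧
        ∃ p : ℕ, p.Prime ∧ ¬ p ∣ b ∧
          ∀ P : Ideal (𝓞 L), P.IsPrime → (p : 𝓞 L) ∈ P → (p : 𝓞 L) ∈ P ^ 2) →
      LeavesHyperplanes b α) ∧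
    (∀ K : IntermediateField ℚ ℝ, FiniteDimensional ℚ K → (∀ j, α j ∈ K) → Independent α →
      (∃ (p : ℕ) (P : Ideal (𝓞 K)), p.Prime ∧ ¬ p ∣ b ∧ P.IsPrime ∧
        (p : 𝓞 K) ∈ P ^ Module.finrank ℚ K) → LeavesHyperplanes b α) ∧
    (∀ K : IntermediateField ℚ ℝ, (∀ j, α j ∈ K) → Independent α →
      ∀ (E : Type) [Field E] [NumberField E] [IsGalois ℚ E], Group.IsNilpotent Gal(E/ℚ) →
        Nonempty (K →+* E) → IsCoprime (b : ℤ) (discr E) → LeavesHyperplanes b α) := by
  have halg' : ∀ z : Fin n → ℤ, IsAlgebraic ℚ (∑ j, (z j : ℝ) * α j) := by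
    intro z
    have : IsIntegral ℚ (∑ j, (z j : ℝ) * α j) := by
      apply IsIntegral.sum
      intro j _
      apply IsIntegral.mul _ (halg j).isIntegral
      have : ((z j : ℤ) : ℝ) = algebraMap ℚ ℝ (z j) := by simp
      rw [this]; exact isIntegral_algebraMap
    exact this.isAlgebraic
  have hmem : ∀ (K : IntermediateField ℚ ℝ), (∀ j, α j ∈ K) → ∀ z : Fin n → ℤ,
      ∑ j, (z j : ℝ) * α j ∈ K := by
    intro K hK z
    apply sum_mem
    intro j _
    exact mul_mem (_root_.intCast_mem K (z j)) (hK j)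
  refine ⟨?_, ?_, ?_⟩
  · intro H
    apply rate_of_ram b hb α halg
    intro z hz
    obtain ⟨L, hL, p, hp, hpb, hram⟩ := H z hz
    have hnf : NumberField ℚ⟮∑ j, (z j : ℝ) * α j⟯ := nf_simple_real _ (halg' z)
    have hfin : FiniteDimensional ℚ L :=
      FiniteDimensional.of_injective (inclusion hL).toLinearMap (inclusion hL).injective
    have hnfL : NumberField L := { to_finiteDimensional := inferInstance }
    exact ⟨L, inferInstance, hnfL, (inclusion hL).toRingHom, p, hp, hpb, hram⟩
  · rintro K hK hα hind ⟨p, P, hp, hpb, hP, hpP⟩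
    have hnfK : NumberField K := { to_finiteDimensional := inferInstance }
    apply rate_of_ram b hb α halg
    intro z hz
    have hnf : NumberField ℚ⟮∑ j, (z j : ℝ) * α j⟯ := nf_simple_real _ (halg' z)
    have hle : ℚ⟮∑ j, (z j : ℝ) * α j⟯ ≤ K := by
      rw [adjoin_simple_le_iff]; exact hmem K hα z
    have hrank : 2 ≤ Module.finrank ℚ ℚ⟮∑ j, (z j : ℝ) * α j⟯ := by
      have h1 : 0 < Module.finrank ℚ ℚ⟮∑ j, (z j : ℝ) * α j⟯ := Module.finrank_pos
      by_contra h2
      have h3 : Module.finrank ℚ ℚ⟮∑ j, (z j : ℝ) * α j⟯ = 1 := by omega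
      have h4 := finrank_eq_one_iff.1 h3
      have h5 : ∑ j, (z j : ℝ) * α j ∈ (⊥ : IntermediateField ℚ ℝ) := by
        rw [← h4]; exact mem_adjoin_simple_self ℚ _
      rw [IntermediateField.mem_bot] at h5
      obtain ⟨r, hr⟩ := h5
      exact irr α hind z hz ⟨r, hr⟩
    refine ⟨ℚ⟮∑ j, (z j : ℝ) * α j⟯, inferInstance, hnf, RingHom.id _, p, hp, hpb, ?_⟩
    intro Q hQ hpQ
    exact tot_ram K _ (inclusion hle).toRingHom hrank p hp P hP hpP Q hQ hpQ
  · intro K hα hind E _ _ _ hnil hj hcop
    obtain ⟨j⟩ := hj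
    apply rate_of_ram b hb α halg
    intro z hz
    exact nil_ram E hnil b hcop K j _ (hmem K hα z) (irr α hind z hz)

end Pool.Agent.Results.MP_c8ecb2_nt.PowerRate
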