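import Pool.Agent.N586.AN.Tot3
import Pool.Agent.N586.AN.Br
import Pool.Agent.N586.AN.Cnt
import Pool.Agent.N586.AN.Sh
import Pool.Agent.N586.AN.Alg
import Pool.Agent.N586.AN.Vm
import Pool.Agent.N586.JT.Bw
import Pool.Agent.N586.JT.Bt
import Pool.Agent.N586.JT.Nt
import Pool.Agent.N586.JT.Fin

/-!
# Simultaneous normality of tuples of algebraic numbers up to `(log H) ^ (3 / 2 - ε)` digits

The real algebraic numbers `x` of degree `d ≥ 2` are ordered by their height `H`, the largest absolute
value of a coefficient of the minimal polynomial over the integers. Let `δ, β > 0` with `2 δ + β < 1`.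
For all `B`, `w`, `r` and `ε > 0` and all large `H`, for all of these numbers, except for a proportion
`exp (-(log H) ^ β)`, the following holds: ALL tuples `(y₁, …, y_r)` of elements
`y_j = f_j(x) / m_j` of the number field `ℚ(x)`, where `f_j` is an integral polynomial of degree less
than `d` and `m_j` and the coefficients of `f_j` are at most `exp ((log H) ^ β)`, such that
`1, y₁, …, y_r` are linearly independent over `ℚ` (for instance `(x, x ^ 2, …, x ^ (d - 1))`), have in
every base `b ≤ B` all `r × k` digit matrices, `k ≤ w`, with the right frequency `b ^ (-k r)` in every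
window of the first `(log H) ^ (1 + δ)` digits, up to `ε N + ε log H`, where `N` is the length of the
window.

Proof. The exponential sums of `e(θ g(x) / m)` over all `x` of height at most `H` are bounded for all
`θ` up to `exp ((log H) ^ (1 + δ))` and all small nonconstant integral polynomials `g` of degree less
than `d` (`Pool.Agent.N586.AN.S_TOT2`, Vinogradov's method along the lines `P + n (v + V X)` in the
space of the polynomials `P`). For `g = ∑ h_j (m / m_j) f_j` these are the Fourier coefficients of the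
joint distribution of the digits of the tuple, and the probabilities of all matrices with up to
`κ (log H) ^ β'` columns at all places of the range follow. A large deviation argument gives all
windows with an exceptional proportion `exp (-(log H) ^ β)`, which is smaller than the inverse of the
number of the tuples.
-/

set_option autoImplicit false

namespace Pool.Agent.Results.MP_c8ecb2_nt.SuperlogTuples

open Polynomial

/-- the real algebraic numbers of degree `d` and height at most `H`: the real roots of the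
irreducible integral polynomials of degree `d` with all coefficients at most `H` in absolute value -/
def AlgNumbers (d H : ℕ) : Set ℝ :=
  {x | ∃ P : ℤ[X], Irreducible P ∧ P.natDegree = d ∧ (∀ i, |P.coeff i| ≤ H) ∧ aeval x P = 0}

/-- the word of the `k` digits in base `b` of `y` which follow the first `n` digits after the point,
read as an integer between `0` and `b ^ k - 1` -/
noncomputable def word (b k n : ℕ) (y : ℝ) : ℕ :=
  ⌊(b : ℝ) ^ k * Int.fract ((b : ℝ) ^ n * y)⌋₊

/-- in every base `2 ≤ b ≤ B` the number of occurrences of every `r × k` digit matrix, `1 ≤ k ≤ w`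
(row `j` is the word `D j` of `y j`), at the `N` places `s, …, s + N - 1`, for every window with
`s + N ≤ L`, differs from `N / b ^ (k r)` by at most `ε N + E` -/
def NormalIn {r : ℕ} (B w : ℕ) (L ε E : ℝ) (y : Fin r → ℝ) : Prop :=
  ∀ (b k s N : ℕ) (D : Fin r → ℕ), 2 ≤ b → b ≤ B → 1 ≤ k → k ≤ w → (∀ j, D j < b ^ k) →
    (s : ℝ) + N ≤ L →
    |(({i : ℕ | i < N ∧ ∀ j, word b k (s + i) (y j) = D j}.ncard : ℕ) : ℝ) -
      N / ((b : ℝ) ^ k) ^ r| ≤ ε * N + E

/-- `deg f j < d`, and `m j ≥ 1` and the absolute values of the coefficients of the integral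
polynomials `f j` are at most `exp ((log H) ^ β)` -/
def Small {r : ℕ} (d H : ℕ) (β : ℝ) (f : Fin r → ℤ[X]) (m : Fin r → ℕ) : Prop :=
  ∀ j, (f j).natDegree < d ∧ (∀ i, |((f j).coeff i : ℝ)| ≤ Real.exp ((Real.log H) ^ β)) ∧
    1 ≤ m j ∧ (m j : ℝ) ≤ Real.exp ((Real.log H) ^ β)

/-- Let `d ≥ 2` and `δ, β > 0` with `2 δ + β < 1`. For all `B`, `w`, `r ≥ 1`, `ε > 0` and all large
`H`: for all real algebraic numbers `x` of degree `d` and height at most `H` except for a proportion
of at most `exp (-(log H) ^ β)` of them, every tuple `y_j = f_j(x) / m_j` with `Small d H β f m` such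
that `1, y₁, …, y_r` are linearly independent over `ℚ` satisfies
`NormalIn B w ((log H) ^ (1 + δ)) ε (ε log H) y`. The number of real algebraic numbers of degree `d`
and height at most `H` is at least `H ^ (d + 1) / (C log H)`. -/
theorem result (d : ℕ) (hd : 2 ≤ d) (δ β : ℝ) (hδ : 0 < δ) (hβ : 0 < β) (hδβ : 2 * δ + β < 1) :
    (∀ (B w r : ℕ) (ε : ℝ), 1 ≤ r → 0 < ε → ∃ H₀ : ℕ, ∀ H : ℕ, H₀ ≤ H →
      (({x ∈ AlgNumbers d H | ¬ ∀ (f : Fin r → ℤ[X]) (m : Fin r → ℕ), Small d H β f m →
        LinearIndependent ℚ (Fin.cons (1 : ℝ) (fun j => aeval x (f j) / m j) : Fin (r + 1) → ℝ) →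
        NormalIn B w ((Real.log H) ^ (1 + δ)) ε (ε * Real.log H)
          (fun j => aeval x (f j) / m j)}.ncard : ℕ) : ℝ) ≤
        Real.exp (-(Real.log H) ^ β) * ((AlgNumbers d H).ncard : ℝ)) ∧
    (∀ H : ℕ, (AlgNumbers d H).Finite) ∧
    ∃ C : ℝ, 0 < C ∧ ∃ H₀ : ℕ, ∀ H : ℕ, H₀ ≤ H →
      (H : ℝ) ^ (d + 1) ≤ C * Real.log H * ((AlgNumbers d H).ncard : ℝ) := by
  classical
  obtain ⟨q, rfl⟩ : ∃ q, d = q + 2 := ⟨d - 2, by omega⟩
  have hAN : ∀ H, AlgNumbers (q + 2) H = Pool.Agent.Y933.KG.Alg (q + 2) H := fun H => rfl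
  have htot : Pool.Agent.N586.AN.S_TOT2 :=
    Pool.Agent.N586.AN.t_tot2 (Pool.Agent.N586.AN.t_tn2 Pool.Agent.N586.AN.t_vm)
      Pool.Agent.N586.AN.t_br Pool.Agent.N586.AN.t_cnt Pool.Agent.N586.AN.t_sh
  have hnt : Pool.Agent.N586.JT.S_NT := Pool.Agent.N586.JT.nt htot
    (Pool.Agent.N586.JT.bt Pool.Agent.N586.JT.bw)
  obtain ⟨C, hC, H1, hH1⟩ := Pool.Agent.N586.AN.t_alg q
  refine ⟨?_, fun H => Pool.Agent.Y933.KG.Alg_finite q H, C, hC, H1, fun H hH => ?_⟩
  swap
  · rw [hAN]
    exact hH1 H hH
  intro B w r ε hr hε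
  obtain ⟨H2, hH2⟩ := Pool.Agent.N586.JT.t_finT hnt Pool.Agent.N586.AN.t_alg q δ β hδ hβ hδβ
    B w r ε hr hε
  refine ⟨H2, fun H hH => le_trans (Nat.cast_le.2 ?_) (hH2 H hH)⟩
  refine Set.ncard_le_ncard ?_ ((Pool.Agent.Y933.KG.Alg_finite q H).subset (Set.sep_subset _ _))
  rintro x ⟨hx, hbad⟩
  refine ⟨hx, fun hcon => hbad fun f m hf hind => ?_⟩
  intro b k s N D hb hbB hk hkw hD hsN
  have h0 : Pool.Agent.N586.JT.SmlT q β H f m :=
    ⟨fun j => (hf j).1, fun j => (hf j).2.1, fun j => (hf j).2.2.1, fun j => (hf j).2.2.2,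
      fun c hc => Pool.Agent.N586.JT.indep x f m (fun j => (hf j).2.2.1) hind c hc⟩
  have h1 := hcon b f m hb hbB h0 k s N D hk hkw hD hsN
  have h2 : {i : ℕ | i < N ∧ ∀ j, word b k (s + i) (aeval x (f j) / m j) = D j} =
      (((Finset.range N).filter
        (fun i => ∀ j, Pool.Agent.Y933.KD.wd b k (s + i) (aeval x (f j) / (m j : ℝ)) = D j) :
          Finset ℕ) : Set ℕ) := by
    ext i
    simp only [Set.mem_ofPred_eq, Finset.coe_filter, Finset.mem_range]
    rfl
  rw [h2, Set.ncard_coe_finset]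
  exact h1

end Pool.Agent.Results.MP_c8ecb2_nt.SuperlogTuples
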